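import Mathlib
import Pool.Agent.Q15.SubEmb

namespace Pool.Agent.Results.MP_0a2dc5_al.NonEmbeddableCube

/-- There is a finite abelian group whose subgroup lattice has no lattice embedding into the
subspace lattice of any vector space over any division ring. More precisely, if a subgroup `C`
of an abelian group `A` maps onto `(ℤ/m)^3` with `m ≥ 2` and the subgroup lattice of `A`
embeds in the subspace lattice of a vector space over `D`, then `m` is a prime and it is the
characteristic of `D`. -/
theorem result :
    (∃ (A : Type) (_ : AddCommGroup A), Finite A ∧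
      ∀ (D : Type*) [DivisionRing D] (V : Type*) [AddCommGroup V] [Module D V]
        (f : LatticeHom (AddSubgroup A) (Submodule D V)), ¬ Function.Injective f) ∧
    (∀ (A : Type*) [AddCommGroup A] (m : ℕ) (C : AddSubgroup A)
      (g : C →+ (Fin 3 → ZMod m)), 2 ≤ m → Function.Surjective g →
      ∀ (D : Type*) [DivisionRing D] (V : Type*) [AddCommGroup V] [Module D V]
        (f : LatticeHom (AddSubgroup A) (Submodule D V)), Function.Injective f →
          m.Prime ∧ CharP D m) := by
  refine ⟨⟨Fin 3 → ZMod 4, inferInstance, inferInstance, ?_⟩, ?_⟩
  · intro D _ V _ _ f hf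
    have := (Q15SubEmb.prime_of_embedding_cube (m := 4) (by norm_num) f hf).1
    revert this
    decide
  · intro A _ m C g hm hg D _ V _ _ f hf
    exact Q15SubEmb.prime_of_embedding hm C g hg f hf

end Pool.Agent.Results.MP_0a2dc5_al.NonEmbeddableCube
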